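import Mathlib

/-!
# The question on differences of squares is the binary Goldbach conjecture

The sequence `a` is the concatenation of the antidiagonals `(c+1)^2 - (c-s)^2`, `s = 0, ..., c`.  We
show that for `n ≥ 1` the only index `i` with `a(i) = 2n+1` and `a(i+n+1) = 2n+3` is `n(n+1)/2`, the
start of antidiagonal `n`.  With the remark of the problem page on these pairs, the statement of Q1 is
equivalent to the binary Goldbach conjecture.

Outline.  Write `a(i) = x^2 - y^2`, `a(j) = x'^2 - y'^2` with `0 ≤ y < x`, `0 ≤ y' < x'`, so that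
`2 i = x(x+1) - 2 - 2y`, and put `u = y' - 1`.  The three equations give
`x'^2 + x' = 2x^2 + x + 2u + 4 - (y+1)^2` and `u^2 = x^2 + x - 2y - x'`.  The first gives `x' > x`.
With `k = x - u` the second is `k(2x-k) = 2y + x' - x`, so `k ≥ 1`; `k ≥ 2` would give `x' ≥ 3x - 2`,
too large for the first equation, and `k = 1` leads to `2xt + 6t + 5t^2 = 0` with `t = x - 1 - y`.
-/

set_option autoImplicit false

namespace Pool.Agent.Results.MP_31dd60_nt.GoldbachEquivalence

/-- the index of the first term of antidiagonal `c` -/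
def tri (c : ℕ) : ℕ := c * (c + 1) / 2

/-- the number of the antidiagonal which contains the term with index `N` -/
def root (N : ℕ) : ℕ := (Nat.sqrt (8 * N + 1) - 1) / 2

/-- the sequence of the problem -/
def a (N : ℕ) : ℕ := (root N + 1) ^ 2 - (root N - (N - tri (root N))) ^ 2

/-- products of two primes -/
def Semiprime (m : ℕ) : Prop := ∃ p q : ℕ, p.Prime ∧ q.Prime ∧ m = p * q

theorem two_tri (c : ℕ) : 2 * tri c = c * (c + 1) := by
  unfold tri
  have : 2 ∣ c * (c + 1) := (Nat.even_mul_succ_self c).two_dvd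
  omega

theorem root_tri {c s : ℕ} (h : s ≤ c) : root (tri c + s) = c := by
  unfold root
  have h1 := two_tri c
  have h2 : 8 * (tri c + s) + 1 = (2 * c + 1) ^ 2 + 8 * s := by nlinarith
  have h3 : 2 * c + 1 ≤ Nat.sqrt (8 * (tri c + s) + 1) := by
    rw [Nat.le_sqrt']
    omega
  have h4 : Nat.sqrt (8 * (tri c + s) + 1) < 2 * c + 3 := by
    rw [Nat.sqrt_lt']
    nlinarith
  omega

theorem a_tri {c s : ℕ} (h : s ≤ c) : a (tri c + s) = (c + 1) ^ 2 - (c - s) ^ 2 := by
  unfold a
  rw [root_tri h]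
  congr 2
  omega

theorem exists_tri (N : ℕ) : ∃ c s : ℕ, s ≤ c ∧ N = tri c + s := by
  induction N with
  | zero => exact ⟨0, 0, le_rfl, by simp [tri]⟩
  | succ N ih =>
    obtain ⟨c, s, h, rfl⟩ := ih
    rcases h.lt_or_eq with h1 | h1
    · exact ⟨c, s + 1, h1, by ring⟩
    · refine ⟨c + 1, 0, by omega, ?_⟩
      have h2 := two_tri c
      have h3 := two_tri (c + 1)
      have h4 : (c + 1) * (c + 1 + 1) = c * (c + 1) + 2 * (c + 1) := by ring
      omega

/-- the Diophantine core -/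
theorem core {x y X Y n : ℤ} (hn : 1 ≤ n) (hy0 : 0 ≤ y) (hyx : y ≤ x - 1) (hY0 : 0 ≤ Y)
    (hYX : Y ≤ X - 1) (h1 : x * x - y * y = 2 * n + 1) (h2 : X * X - Y * Y = 2 * n + 3)
    (h3 : (X * X + X - 2 - 2 * Y) - (x * x + x - 2 - 2 * y) = 2 * n + 2) : y = x - 1 := by
  obtain ⟨u, hu⟩ : ∃ u : ℤ, u = Y - 1 := ⟨_, rfl⟩
  have hY : Y = u + 1 := by omega
  subst hY
  have hx : 1 ≤ x := by omega
  have hX : 1 ≤ X := by omega
  have hA : X * X + X = 2 * (x * x) + x + 2 * u + 4 - (y + 1) * (y + 1) := by linarith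
  have hB : u * u = x * x + x - 2 * y - X := by linarith
  have hyy : (y + 1) * (y + 1) ≤ x * x := mul_self_le_mul_self (by omega) (by omega)
  have hyy1 : 1 * 1 ≤ (y + 1) * (y + 1) := mul_self_le_mul_self (by omega) (by omega)
  have hx2 : x ≠ 1 := by
    rintro rfl
    have : y = 0 := by omega
    subst this
    omega
  have hy2 : x = 2 → y = 1 := by
    rintro rfl
    rcases (show y = 0 ∨ y = 1 by omega) with h | h
    · subst h; omega
    · exact h
  clear h1 h2 h3
  have hC : x + 1 ≤ X := by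
    by_contra hcon
    have h4 : X ≤ x := by omega
    have h5 : X * X ≤ x * x := mul_self_le_mul_self (by omega) h4
    omega
  obtain ⟨k, hk⟩ : ∃ k : ℤ, k = x - u := ⟨_, rfl⟩
  have hu' : u = x - k := by omega
  subst hu'
  have hD : k * (2 * x - k) = 2 * y + X - x := by linarith
  rcases (show k ≤ 0 ∨ k = 1 ∨ 2 ≤ k by omega) with h0 | h0 | h0
  · exfalso
    have : k * (2 * x - k) ≤ 0 := mul_nonpos_of_nonpos_of_nonneg h0 (by omega)
    omega
  · subst h0
    obtain ⟨t, ht⟩ : ∃ t : ℤ, t = x - 1 - y := ⟨_, rfl⟩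
    have ht0 : 0 ≤ t := by omega
    have hy' : y = x - 1 - t := by omega
    subst hy'
    have hX' : X = x + 1 + 2 * t := by omega
    subst hX'
    have h6 : 2 * (x * t) + 6 * t + 5 * (t * t) = 0 := by linarith
    have h7 : 0 ≤ x * t := mul_nonneg (by omega) ht0
    have h8 : 0 ≤ t * t := mul_nonneg ht0 ht0
    omega
  · exfalso
    rcases (show x = 2 ∨ 3 ≤ x by omega) with h4 | h4
    · have hy1 := hy2 h4
      subst h4
      subst hy1
      have h6 : 3 ≤ X := by omega
      have h7 : 3 * 3 ≤ X * X := mul_self_le_mul_self (by omega) h6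
      omega
    · have h5 : 0 ≤ (k - 2) * (2 * x - k - 2) := mul_nonneg (by omega) (by omega)
      have h6 : 4 * x - 4 ≤ k * (2 * x - k) := by linarith
      have h7 : 3 * x - 2 ≤ X := by omega
      have h8 : X * X + X ≤ 2 * (x * x) + 3 * x - 1 := by omega
      have h9 : (3 * x - 2) * (3 * x - 2) ≤ X * X := mul_self_le_mul_self (by omega) h7
      have h10 : 3 * x ≤ x * x := mul_le_mul_of_nonneg_right h4 (by omega)
      linarith

theorem unique_pair {n i : ℕ} (hn : 1 ≤ n) (h1 : a i = 2 * n + 1) (h2 : a (i + n + 1) = 2 * n + 3) :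
    i = tri n := by
  obtain ⟨c, s, hs, rfl⟩ := exists_tri i
  obtain ⟨C, T, hT, hj⟩ := exists_tri (tri c + s + n + 1)
  rw [hj, a_tri hT] at h2
  rw [a_tri hs] at h1
  have hc := two_tri c
  have hC := two_tri C
  obtain ⟨y, rfl⟩ : ∃ y, c = s + y := ⟨c - s, by omega⟩
  obtain ⟨Y, rfl⟩ : ∃ Y, C = T + Y := ⟨C - T, by omega⟩
  have e1 : s + y - s = y := by omega
  have e2 : T + Y - T = Y := by omega
  rw [e1] at h1
  rw [e2] at h2
  have g1 : (s + y + 1) ^ 2 = 2 * n + 1 + y ^ 2 := by omega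
  have g2 : (T + Y + 1) ^ 2 = 2 * n + 3 + Y ^ 2 := by omega
  have g1' : ((s : ℤ) + y + 1) ^ 2 = 2 * n + 1 + y ^ 2 := by exact_mod_cast g1
  have g2' : ((T : ℤ) + Y + 1) ^ 2 = 2 * n + 3 + Y ^ 2 := by exact_mod_cast g2
  have hc' : 2 * (tri (s + y) : ℤ) = ((s : ℤ) + y) * (s + y + 1) := by exact_mod_cast hc
  have hC' : 2 * (tri (T + Y) : ℤ) = ((T : ℤ) + Y) * (T + Y + 1) := by exact_mod_cast hC
  have hj' : (tri (s + y) : ℤ) + s + n + 1 = tri (T + Y) + T := by exact_mod_cast hj
  have hmain := core (x := (s : ℤ) + y + 1) (y := y) (X := (T : ℤ) + Y + 1) (Y := Y) (n := n)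
    (by exact_mod_cast hn) (by positivity) (by omega) (by positivity) (by omega)
    (by linarith) (by linarith) (by linarith)
  have hs0 : s = 0 := by omega
  subst hs0
  have hny : n = y := by
    have h5 := g1
    ring_nf at h5
    omega
  subst hny
  simp

theorem prime_factors {x y p q : ℕ} (hp : p.Prime) (hq : q.Prime) (hx : 2 ≤ x) (hy : 2 ≤ y)
    (h : x * y = p * q) : x.Prime ∧ y.Prime := by
  have key : ∀ {x y : ℕ}, 2 ≤ x → 2 ≤ y → x * y = p * q → p ∣ x → x.Prime ∧ y.Prime := by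
    intro x y hx hy h hpx
    obtain ⟨z, rfl⟩ := hpx
    have h1 : z * y = q := by
      have : p * (z * y) = p * q := by rw [← h]; ring
      exact Nat.eq_of_mul_eq_mul_left hp.pos this
    have h2 : z = 1 := by
      have hyq : y ∣ q := ⟨z, by rw [← h1]; ring⟩
      rcases (Nat.dvd_prime hq).1 hyq with h3 | h3
      · omega
      · rw [h3] at h1
        have : z * q = 1 * q := by omega
        exact Nat.eq_of_mul_eq_mul_right hq.pos this
    subst h2
    rw [one_mul] at h1
    rw [mul_one, h1]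
    exact ⟨hp, hq⟩
  have hd : p ∣ x * y := ⟨q, h⟩
  rcases (hp.dvd_mul).1 hd with h1 | h1
  · exact key hx hy h h1
  · exact (key hy hx (by rw [mul_comm]; exact h) h1).symm

/-- the standard pair of indices -/
theorem standard {n : ℕ} :
    (∃ k, tri n < k ∧ k < tri n + n + 1 ∧ Semiprime (a k)) ↔
      ∃ p q : ℕ, p.Prime ∧ q.Prime ∧ 2 * (n + 1) = p + q := by
  constructor
  · rintro ⟨k, h1, h2, p, q, hp, hq, h3⟩
    obtain ⟨s, rfl⟩ : ∃ s, k = tri n + s := ⟨k - tri n, by omega⟩
    rw [a_tri (by omega)] at h3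
    obtain ⟨t, ht⟩ : ∃ t, n = s + t := ⟨n - s, by omega⟩
    have e : n - s = t := by omega
    rw [e] at h3
    have h4 : (n + 1) ^ 2 - t ^ 2 = (n + 1 + t) * (n + 1 - t) := Nat.sq_sub_sq _ _
    rw [h4] at h3
    obtain ⟨g1, g2⟩ := prime_factors hp hq (by omega) (by omega) h3
    exact ⟨n + 1 + t, n + 1 - t, g1, g2, by omega⟩
  · rintro ⟨p, q, hp, hq, h⟩
    have key : ∀ {p q : ℕ}, p.Prime → q.Prime → p ≤ q → 2 * (n + 1) = p + q →
        ∃ k, tri n < k ∧ k < tri n + n + 1 ∧ Semiprime (a k) := by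
      intro p q hp hq hle h
      have hp2 := hp.two_le
      refine ⟨tri n + (p - 1), by omega, by omega, q, p, hq, hp, ?_⟩
      rw [a_tri (by omega), Nat.sq_sub_sq]
      have e1 : n + 1 + (n - (p - 1)) = q := by omega
      have e2 : n + 1 - (n - (p - 1)) = p := by omega
      rw [e1, e2]
    rcases le_total p q with h1 | h1
    · exact key hp hq h1 h
    · exact key hq hp h1 (by omega)

theorem at_tri {n : ℕ} : a (tri n) = 2 * n + 1 := by
  have h := a_tri (c := n) (s := 0) (by omega)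
  rw [add_zero] at h
  rw [h, Nat.sub_zero, Nat.sq_sub_sq]
  have : n + 1 - n = 1 := by omega
  rw [this]; ring

theorem tri_succ (n : ℕ) : tri n + n + 1 = tri (n + 1) := by
  have h2 := two_tri n
  have h3 := two_tri (n + 1)
  have h4 : (n + 1) * (n + 1 + 1) = n * (n + 1) + 2 * (n + 1) := by ring
  omega

/-- (0) `a` is the sequence of the problem.  (1) For `n ≥ 1` the only index `i` with `a(i) = 2n+1` and
`a(i+n+1) = 2n+3` is `n(n+1)/2`.  (2) The statement of Q1 is equivalent to the binary Goldbach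
conjecture: every even number `2m ≥ 4` is a sum of two primes. -/
theorem result :
    (∀ c s : ℕ, s ≤ c → a (c * (c + 1) / 2 + s) = (c + 1) ^ 2 - (c - s) ^ 2) ∧
    (∀ n i : ℕ, 1 ≤ n →
      ((a i = 2 * n + 1 ∧ a (i + n + 1) = 2 * n + 3) ↔ i = n * (n + 1) / 2)) ∧
    ((∀ n i j : ℕ, 1 ≤ n → a i = 2 * n + 1 → a j = 2 * n + 3 → j = i + n + 1 →
        ∃ k : ℕ, i < k ∧ k < j ∧ Semiprime (a k)) ↔
      (∀ m : ℕ, 2 ≤ m → ∃ p q : ℕ, p.Prime ∧ q.Prime ∧ 2 * m = p + q)) := by
  have hpair : ∀ n : ℕ, a (tri n + n + 1) = 2 * n + 3 := by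
    intro n
    rw [tri_succ, at_tri]; ring
  refine ⟨fun c s h => a_tri h, ?_, ?_⟩
  · intro n i hn
    constructor
    · rintro ⟨h1, h2⟩
      exact unique_pair hn h1 h2
    · intro h
      have h' : i = tri n := h
      rw [h']
      exact ⟨at_tri, hpair n⟩
  · constructor
    · intro h m hm
      obtain ⟨n, rfl⟩ : ∃ n, m = n + 1 := ⟨m - 1, by omega⟩
      have hn : 1 ≤ n := by omega
      exact standard.1 (h n (tri n) (tri n + n + 1) hn at_tri (hpair n) rfl)
    · rintro h n i j hn h1 h2 rfl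
      have hi := unique_pair hn h1 h2
      subst hi
      exact standard.2 (h (n + 1) (by omega))

end Pool.Agent.Results.MP_31dd60_nt.GoldbachEquivalence
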